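import Pool.Agent.H914R3.CG.Bounds

set_option autoImplicit false

namespace Pool.Agent.Results.MP_b38b19_an.NoBoundaryValues

open Pool.Agent.H914R3.CG

/-- There are a bounded hyperconvex domain `Ω` in `ℂ²` and a function `u` in the Cegrell class
`𝓔(Ω)` such that no `φ` in the class `𝓝(Ω)` satisfies `φ + ũ ≤ u` on `Ω`; moreover no negative
plurisubharmonic function `φ` with `φ̃ = 0` satisfies it. -/
theorem result : ∃ Ω : Set (Fin 2 → ℂ), IsHyperconvex Ω ∧ ∃ u : (Fin 2 → ℂ) → EReal, IsE Ω u ∧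
    (¬ ∃ φ : (Fin 2 → ℂ) → EReal, IsN Ω φ ∧ ∀ z ∈ Ω, φ z + tilde Ω u z ≤ u z) ∧
    ¬ ∃ φ : (Fin 2 → ℂ) → EReal, IsNegPSH Ω φ ∧ (∀ z ∈ Ω, tilde Ω φ z = 0) ∧
      ∀ z ∈ Ω, φ z + tilde Ω u z ≤ u z := by
  refine ⟨Om, Om_hyperconvex, _, uu_E, ?_, no_phi⟩
  rintro ⟨φ, hN, h⟩
  exact no_phi ⟨φ, hN.1.1, hN.2, h⟩

end Pool.Agent.Results.MP_b38b19_an.NoBoundaryValues
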